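import Pool.Agent.H.MP_2e038a_an.A

namespace Pool.Agent.Results.MP_2e038a_an.Yes

open Pool.Agent.H.MP_2e038a_an
open scoped ENNReal ZeroAtInfty

variable {𝕜 X Y : Type} [RCLike 𝕜] [NormedAddCommGroup X] [NormedSpace 𝕜 X]
  [NormedAddCommGroup Y] [NormedSpace 𝕜 Y]

/-- periodic pseudotrajectory -/
def PerPseudo (T : X ≃L[𝕜] X) (δ : ℝ) (x : ℤ → X) : Prop :=
  (∀ j, ‖T (x j) - x (j + 1)‖ < δ) ∧ ∃ q : ℕ, 0 < q ∧ ∀ j, x (j + q) = x j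

/-- periodic point -/
def PerPt (T : X ≃L[𝕜] X) (y : X) : Prop := ∃ m : ℕ, 0 < m ∧ (T ^ m) y = y

/-- the orbit of `y` stays close to `x` -/
def Shadows (T : X ≃L[𝕜] X) (ε : ℝ) (y : X) (x : ℤ → X) : Prop := ∀ j : ℤ, ‖x j - (T ^ j) y‖ < ε

/-- periodic shadowing property of an invertible operator -/
def PSP (T : X ≃L[𝕜] X) : Prop :=
  ∀ ε > 0, ∃ δ > 0, ∀ x, PerPseudo T δ x → ∃ y, PerPt T y ∧ Shadows T ε y x

/-- `T` acts on coordinates as the weighted backward shift -/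
def IsShift (w : ℤ → 𝕜) (c : X → ℤ → 𝕜) (T : X ≃L[𝕜] X) : Prop :=
  ∀ x n, c (T x) n = w (n + 1) * c x (n + 1)

/-- the shift has the property on one sequence space iff it has it on the other -/
def Same (w : ℤ → 𝕜) (c : X → ℤ → 𝕜) (d : Y → ℤ → 𝕜) : Prop :=
  ∀ S T, IsShift w c S → IsShift w d T → (PSP S ↔ PSP T)

lemma ps (T : X ≃L[𝕜] X) : PSP T ↔ PS T := by
  simp only [PSP, PS, PerPseudo, PerPt, Shadows, and_imp]

theorem result (p : ℝ≥0∞) [Fact (1 ≤ p)] (hp : p ≠ ⊤) (w : ℤ → 𝕜)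
    (hw : ∃ M, ∀ n, ‖w n‖ ≤ M) (hw' : ∃ c > 0, ∀ n, c ≤ ‖w n‖) :
    Same w (fun (x : lp (fun _ : ℤ => 𝕜) p) n => x n) (fun (x : C₀(ℤ, 𝕜)) n => x n) := by
  intro S T hS hT
  rw [ps, ps]
  obtain ⟨M, hM⟩ := hw
  obtain ⟨c, c0, hc⟩ := hw'
  obtain ⟨e, e1, e2⟩ := sq1 (𝕜 := 𝕜) p hp
  obtain ⟨f, f1, f2⟩ := sq2 (𝕜 := 𝕜)
  have hS' : ∀ x n, e (S x) n = w (n + 1) * e x (n + 1) := fun x n => by rw [e2, e2]; exact hS x n
  have hT' : ∀ x n, f (T x) n = w (n + 1) * f x (n + 1) := fun x n => by rw [f2, f2]; exact hT x n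
  obtain ⟨G, G0, hG⟩ := f1.exG (fun n => norm_pos_iff.1 (c0.trans_le (hc n))) hT'
  obtain ⟨ψ, h1⟩ := e1.sp hS' G0 hG
  obtain ⟨φ, h2⟩ := f1.sp hT' G0 hG
  have m1 : ∀ j, ‖G (j + 1)‖ ≤ max 1 (max M c⁻¹) * ‖G j‖ := fun j => by
    rw [hG, norm_mul]
    exact mul_le_mul_of_nonneg_right ((hM _).trans (by simp)) (norm_nonneg _)
  have m2 : ∀ j, ‖G j‖ ≤ max 1 (max M c⁻¹) * ‖G (j + 1)‖ := fun j => by
    rw [hG, norm_mul, ← mul_assoc]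
    refine le_mul_of_one_le_left (norm_nonneg _) ((inv_mul_cancel₀ c0.ne').ge.trans ?_)
    exact mul_le_mul (by simp) (hc _) c0.le (by positivity)
  exact (iff h1 (le_max_left _ _) m1 m2).trans (iff h2 (le_max_left _ _) m1 m2).symm

end Pool.Agent.Results.MP_2e038a_an.Yes
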